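import Pool.Agent.H13.CA.Com

/-!
# The group of automorphisms of a formal group law of finite height has finite exponent modulo `x ^ N`
-/

open PowerSeries

namespace Pool.Agent.H66.CA

open Pool.Agent.H13.CA

section comp

variable {R : Type*} [CommRing R]

theorem cc_iter {f : R⟦X⟧} (hf : constantCoeff f = 0) (n : ℕ) : constantCoeff (iter f n) = 0 := by
  induction n with
  | zero => exact PowerSeries.constantCoeff_X
  | succ n ih => exact cc_subst ih hf

/-- the composition operator `g ↦ g ∘ f` -/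
noncomputable def cop {f : R⟦X⟧} (hf : constantCoeff f = 0) : R⟦X⟧ →ₐ[R] R⟦X⟧ :=
  PowerSeries.substAlgHom (hs_zero hf)

theorem cop_apply {f : R⟦X⟧} (hf : constantCoeff f = 0) (g : R⟦X⟧) :
    cop hf g = PowerSeries.subst f g := by
  unfold cop
  rw [PowerSeries.coe_substAlgHom]

theorem cop_pow {f : R⟦X⟧} (hf : constantCoeff f = 0) (n : ℕ) (g : R⟦X⟧) :
    ((cop hf).toLinearMap ^ n) g = PowerSeries.subst (iter f n) g := by
  induction n generalizing g with
  | zero =>
    rw [pow_zero]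
    exact (PowerSeries.X_subst g).symm
  | succ n ih =>
    rw [pow_succ, Module.End.mul_apply, ih]
    change PowerSeries.subst (iter f n) (cop hf g) = _
    rw [cop_apply, subst_subst' hf (cc_iter hf n)]
    rfl

theorem cop_pow_X {f : R⟦X⟧} (hf : constantCoeff f = 0) (n : ℕ) :
    ((cop hf).toLinearMap ^ n) X = iter f n := by
  rw [cop_pow, PowerSeries.subst_X (hs_zero (cc_iter hf n))]

theorem iter_mul {f : R⟦X⟧} (hf : constantCoeff f = 0) (m n : ℕ) :
    iter f (m * n) = iter (iter f m) n := by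
  rw [← cop_pow_X hf, ← cop_pow_X (cc_iter hf m), pow_mul]
  congr 2
  refine LinearMap.ext fun g => ?_
  rw [cop_pow]
  exact (cop_apply (cc_iter hf m) g).symm

theorem cc_subst_any {a : R⟦X⟧} (ha : constantCoeff a = 0) (g : R⟦X⟧) :
    constantCoeff (PowerSeries.subst a g : R⟦X⟧) = constantCoeff g := by
  have h1 : g = C (constantCoeff g) + (g - C (constantCoeff g)) := by ring
  have h2 : constantCoeff (g - C (constantCoeff g)) = 0 := by simp
  conv_lhs => rw [h1]
  rw [PowerSeries.subst_add (hs_zero ha), map_add, cc_subst ha h2, add_zero,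
    ← PowerSeries.coe_substAlgHom (hs_zero ha)]
  have h3 : (C (constantCoeff g) : R⟦X⟧) = algebraMap R R⟦X⟧ (constantCoeff g) := rfl
  rw [h3, AlgHom.commutes]
  simp

/-- the linear coefficient of a composite -/
theorem coeff_one_subst {a f : R⟦X⟧} (ha : constantCoeff a = 0) (hf : constantCoeff f = 0) :
    coeff 1 (PowerSeries.subst a f : R⟦X⟧) = coeff 1 f * coeff 1 a := by
  obtain ⟨f', rfl⟩ := PowerSeries.X_dvd_iff.2 hf
  rw [PowerSeries.subst_mul (hs_zero ha), PowerSeries.subst_X (hs_zero ha)]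
  obtain ⟨a', rfl⟩ := PowerSeries.X_dvd_iff.2 ha
  have e1 := cc_subst_any ha f'
  have e2 : ∀ g : R⟦X⟧, coeff 1 (X * g) = constantCoeff g := fun g => by
    rw [show (1 : ℕ) = 0 + 1 from rfl, PowerSeries.coeff_succ_X_mul,
      PowerSeries.coeff_zero_eq_constantCoeff_apply]
  rw [mul_assoc, e2, e2, e2, map_mul, e1, mul_comm]

theorem coeff_one_iter {f : R⟦X⟧} (hf : constantCoeff f = 0) (n : ℕ) :
    coeff 1 (iter f n) = coeff 1 f ^ n := by
  induction n with
  | zero => rw [pow_zero]; exact PowerSeries.coeff_one_X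
  | succ n ih =>
    change coeff 1 (PowerSeries.subst (iter f n) f : R⟦X⟧) = _
    rw [coeff_one_subst (cc_iter hf n) hf, ih, pow_succ, mul_comm]

/-- the difference operator raises the order -/
theorem diff_dvd {f : R⟦X⟧} (hf : constantCoeff f = 0) (h1 : (X : R⟦X⟧) ^ 2 ∣ f - X) (n : ℕ)
    {g : R⟦X⟧} (hg : (X : R⟦X⟧) ^ (n + 1) ∣ g) :
    (X : R⟦X⟧) ^ (n + 2) ∣ ((cop hf).toLinearMap - 1) g := by
  obtain ⟨g', rfl⟩ := hg
  obtain ⟨a, ha⟩ := h1
  have hfa : f = X * (1 + X * a) := by linear_combination ha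
  have h3 : ((cop hf).toLinearMap - 1) (X ^ (n + 1) * g') =
      f ^ (n + 1) * cop hf g' - X ^ (n + 1) * g' := by
    rw [LinearMap.sub_apply]
    change cop hf (X ^ (n + 1) * g') - X ^ (n + 1) * g' = _
    rw [map_mul, map_pow, cop_apply hf X, PowerSeries.subst_X (hs_zero hf)]
  have h4 : (X : R⟦X⟧) ∣ cop hf g' - g' := by
    rw [cop_apply]
    refine PowerSeries.X_dvd_iff.2 ?_
    rw [map_sub, cc_subst_any hf, sub_self]
  obtain ⟨b, hb⟩ := h4
  have h6 : (X : R⟦X⟧) ∣ (1 + X * a) ^ (n + 1) - 1 := by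
    have h7 := sub_dvd_pow_sub_pow (1 + X * a) (1 : R⟦X⟧) (n + 1)
    rw [one_pow] at h7
    exact (Dvd.intro a (by ring)).trans h7
  obtain ⟨c, hc⟩ := h6
  rw [h3]
  refine ⟨c * cop hf g' + b, ?_⟩
  have hc' : (1 + X * a) ^ (n + 1) = 1 + X * c := by linear_combination hc
  have hb' : cop hf g' = g' + X * b := by linear_combination hb
  have hf' : f ^ (n + 1) = X ^ (n + 1) * (1 + X * c) := by
    rw [← hc', ← mul_pow, ← hfa]
  rw [hf', hb']
  ring

theorem diff_pow_dvd {f : R⟦X⟧} (hf : constantCoeff f = 0) (h1 : (X : R⟦X⟧) ^ 2 ∣ f - X) (n : ℕ) :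
    (X : R⟦X⟧) ^ (n + 1) ∣ (((cop hf).toLinearMap - 1) ^ n) X := by
  induction n with
  | zero => rw [pow_zero, zero_add, pow_one]; exact dvd_refl _
  | succ n ih =>
    have h2 : (((cop hf).toLinearMap - 1) ^ (n + 1)) (X : R⟦X⟧) =
        ((cop hf).toLinearMap - 1) ((((cop hf).toLinearMap - 1) ^ n) X) := by
      rw [pow_succ', Module.End.mul_apply]
    rw [h2]
    exact diff_dvd hf h1 n ih

theorem iter_pow_dvd (p : ℕ) [Fact p.Prime] [CharP R p] {f : R⟦X⟧} (hf : constantCoeff f = 0)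
    (h1 : (X : R⟦X⟧) ^ 2 ∣ f - X) (r : ℕ) : (X : R⟦X⟧) ^ (p ^ r + 1) ∣ iter f (p ^ r) - X := by
  have hp1 : p ≠ 1 := Nat.Prime.ne_one Fact.out
  haveI : Nontrivial R := CharP.nontrivial_of_char_ne_one hp1
  haveI : CharP (Module.End R R⟦X⟧) p := by
    refine charP_of_injective_algebraMap (R := R) ?_ p
    intro a b hab
    have h2 := congrArg (fun T : Module.End R R⟦X⟧ => constantCoeff (T 1)) hab
    simpa [Algebra.algebraMap_eq_smul_one] using h2
  have h3 := diff_pow_dvd hf h1 (p ^ r)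
  have h4 : ((cop hf).toLinearMap - 1) ^ p ^ r = (cop hf).toLinearMap ^ p ^ r - 1 := by
    rw [sub_pow_char_pow_of_commute (p := p) (h := Commute.one_right _), one_pow]
  rw [h4, LinearMap.sub_apply, cop_pow_X] at h3
  exact h3

end comp

/-- for some `M ≥ 1` all `M`-th iterates of automorphisms are `≡ x mod x ^ N` -/
theorem exponent {k : Type*} [Field k] (p : ℕ) [Fact p.Prime] [CharP k p]
    {h : ℕ} (hh : 1 ≤ h) {Γ : FormalGroup k} (hΓ' : HasHeight p h Γ) (N : ℕ) :
    ∃ M, 1 ≤ M ∧ ∀ θ : PowerSeries k, IsHom Γ Γ θ → IsUnit (PowerSeries.coeff 1 θ) →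
      (PowerSeries.X : PowerSeries k) ^ N ∣ iter θ M - PowerSeries.X := by
  have hp : 1 < p := Nat.Prime.one_lt Fact.out
  have hq : 1 < p ^ h := Nat.one_lt_pow (by omega) hp
  refine ⟨(p ^ h - 1) * p ^ N, Nat.mul_pos (by omega) (pow_pos (by omega) _), fun θ hθ hu => ?_⟩
  have hθ0 := hθ.1
  obtain ⟨W, hW⟩ : ∃ W, mulSer Γ p = X ^ (p ^ h) * W :=
    PowerSeries.X_pow_dvd_iff.2 fun i hi => hΓ'.1 i hi
  have hc : constantCoeff W ≠ 0 := by
    have h2 := hΓ'.2.ne_zero
    rw [hW, PowerSeries.coeff_X_pow_mul', if_pos le_rfl, Nat.sub_self,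
      PowerSeries.coeff_zero_eq_constantCoeff_apply] at h2
    exact h2
  have h3 := congrArg (coeff (p ^ h)) (hθ.mulSer p)
  obtain ⟨t, ht⟩ := PowerSeries.X_dvd_iff.2 hθ0
  have ht1 : coeff 1 θ = constantCoeff t := by
    rw [ht, show (1 : ℕ) = 0 + 1 from rfl, PowerSeries.coeff_succ_X_mul,
      PowerSeries.coeff_zero_eq_constantCoeff_apply]
  have hm0 := cc_mulSer Γ p
  have hco : ∀ g : PowerSeries k, coeff (p ^ h) (X ^ (p ^ h) * g) = constantCoeff g := fun g => by
    rw [PowerSeries.coeff_X_pow_mul', if_pos le_rfl, Nat.sub_self,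
      PowerSeries.coeff_zero_eq_constantCoeff_apply]
  have h4 : coeff (p ^ h) (PowerSeries.subst (mulSer Γ p) θ : PowerSeries k) =
      coeff 1 θ * constantCoeff W := by
    have e1 : (PowerSeries.subst (mulSer Γ p) θ : PowerSeries k) =
        X ^ (p ^ h) * (W * PowerSeries.subst (mulSer Γ p) t) := by
      rw [ht, PowerSeries.subst_mul (hs_zero hm0), PowerSeries.subst_X (hs_zero hm0)]
      conv_lhs => rw [hW]
      rw [mul_assoc, ← hW]
    rw [e1, hco, map_mul, cc_subst_any hm0, ht1, mul_comm]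
  have h5 : coeff (p ^ h) (PowerSeries.subst θ (mulSer Γ p) : PowerSeries k) =
      coeff 1 θ ^ (p ^ h) * constantCoeff W := by
    have e1 : (PowerSeries.subst θ (mulSer Γ p) : PowerSeries k) =
        X ^ (p ^ h) * (t ^ (p ^ h) * PowerSeries.subst θ W) := by
      rw [hW, PowerSeries.subst_mul (hs_zero hθ0), PowerSeries.subst_pow (hs_zero hθ0),
        PowerSeries.subst_X (hs_zero hθ0)]
      rw [← mul_assoc, ← mul_pow, ← ht]
    rw [e1, hco, map_mul, map_pow, cc_subst_any hθ0, ht1]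
  rw [h4, h5] at h3
  have h6 : coeff 1 θ ^ (p ^ h - 1) = 1 := by
    have h7 := mul_right_cancel₀ hc h3
    have h8 : p ^ h = (p ^ h - 1) + 1 := by omega
    rw [h8, pow_succ] at h7
    have h9 := mul_right_cancel₀ hu.ne_zero ((one_mul _).trans h7)
    simpa using h9.symm
  rw [iter_mul hθ0]
  refine (pow_dvd_pow _ ?_).trans (iter_pow_dvd p (cc_iter hθ0 _) ?_ N)
  · exact (Nat.lt_pow_self hp).le.trans (Nat.le_succ _)
  · refine PowerSeries.X_pow_dvd_iff.2 fun i hi => ?_
    interval_cases i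
    · rw [PowerSeries.coeff_zero_eq_constantCoeff_apply, map_sub, cc_iter hθ0,
        PowerSeries.constantCoeff_X, sub_zero]
    · rw [map_sub, coeff_one_iter hθ0, h6, PowerSeries.coeff_one_X, sub_self]

end Pool.Agent.H66.CA
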